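import Pool.Agent.Y48.KF.Cov

set_option autoImplicit false

/-! Content failure at large primes. -/

namespace Pool.Agent.Y48.KF

open Pool.Agent.Y714.KF
open NumberField FractionalIdeal Module Finset
open scoped nonZeroDivisors

variable (K : Type) [Field K] [NumberField K]

theorem nm_eq_one {K : Type} [Field K] [NumberField K] {J : FI K} (h1 : J ≤ 1) (h2 : nm J = 1) :
    J = 1 := by
  obtain ⟨L0, rfl⟩ := exists_ideal h1
  rw [nm, coeIdeal_absNorm] at h2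
  have h3 : Ideal.absNorm L0 = 1 := by exact_mod_cast h2
  rw [Ideal.absNorm_eq_one_iff] at h3
  rw [h3]
  simp

/-- the crude bound for one lattice count, in an ideal of norm at least `D * nm I` -/
theorem cr_mul {K : Type} [Field K] [NumberField K] {κ : Fin (Units.rank K) → ℝ} {C : ℝ}
    (hC : 0 < C)
    (h : ∀ (I : (FI K)ˣ) (t : ℝ), 0 < t → (SL κ (I : FI K) t).Finite ∧
      ((SL κ (I : FI K) t).ncard : ℝ) ≤ C * t / ((nm (I : FI K) : ℚ) : ℝ) ^ 2)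
    {J : FI K} {I : FI K} (hJ : J ≠ 0) (hI : I ≠ 0) {t D : ℝ} (ht : 0 < t) (hD : 0 < D)
    (hDJ : D * ((nm I : ℚ) : ℝ) ≤ ((nm J : ℚ) : ℝ)) :
    (SL κ J t).Finite ∧ ((SL κ J t).ncard : ℝ) ≤ C * t / (D ^ 2 * ((nm I : ℚ) : ℝ) ^ 2) := by
  obtain ⟨h1, h2⟩ := h (Units.mk0 J hJ) t ht
  rw [Units.val_mk0] at h1 h2
  refine ⟨h1, h2.trans ?_⟩
  have h3 : (0 : ℝ) < ((nm I : ℚ) : ℝ) := by exact_mod_cast nm_pos hI
  rw [← mul_pow]
  gcongr

theorem cf (h1 : S_CR K) (h2 : S_DIV K) : S_CF K := by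
  intro hodd hn κ
  obtain ⟨C, hC, hCR⟩ := h1 hodd hn κ
  refine ⟨2 * (2 ^ finrank ℚ K * C), by positivity, fun I t X ht hX => ?_⟩
  have hI0 : (I : FI K) ≠ 0 := I.ne_zero
  have hnI : (0 : ℝ) < ((nm (I : FI K) : ℚ) : ℝ) := by exact_mod_cast nm_pos hI0
  have key := cover {M ∈ SL κ (I : FI K) t | ∃ p : ℕ, p.Prime ∧ X < p ∧ Cf p I M}
    ((hCR I t ht).1.subset fun M hM => hM.1)
    (fun p => {M | M ∈ SL κ (I : FI K) t ∧ p.Prime ∧ Cf p I M})
    (2 ^ finrank ℚ K * C * t / ((nm (I : FI K) : ℚ) : ℝ) ^ 2) X (by positivity) (by linarith)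
    ?_ ?_
  · refine key.trans (le_of_eq ?_)
    field_simp
  · intro p hXp
    have hp0 : (0 : ℝ) < (p : ℝ) := by linarith
    by_cases hp : p.Prime
    swap
    · have : {M | M ∈ SL κ (I : FI K) t ∧ p.Prime ∧ Cf p I M} = ∅ := by
        ext M
        simp [hp]
      rw [this]
      refine ⟨Set.finite_empty, ?_⟩
      rw [Set.ncard_empty]
      push_cast
      positivity
    obtain ⟨d1, d2⟩ := h2 p hp 1
    have hp0' : (p : K) ≠ 0 := by exact_mod_cast hp.ne_zero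
    have hT : {J : FI K | (sp (p : K) ≤ J ∧ J ≤ 1) ∧ J ≠ 1} ⊆
        {J : FI K | sp (p : K) * ((1 : (FI K)ˣ) : FI K) ≤ J ∧ J ≤ ((1 : (FI K)ˣ) : FI K)} := by
      intro J hJ
      simp only [Set.mem_ofPred_eq, Units.val_one, mul_one]
      exact hJ.1
    have key2 := bUc {M | M ∈ SL κ (I : FI K) t ∧ p.Prime ∧ Cf p I M}
      {J : FI K | (sp (p : K) ≤ J ∧ J ≤ 1) ∧ J ≠ 1} (d1.subset hT) (2 ^ finrank ℚ K)
      ((Set.ncard_le_ncard hT d1).trans d2) (fun J => SL κ (J * (I : FI K)) t)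
      (C * t / ((p : ℝ) ^ 2 * ((nm (I : FI K) : ℚ) : ℝ) ^ 2)) (by positivity) ?_ ?_
    · refine ⟨key2.1, key2.2.trans (le_of_eq ?_)⟩
      push_cast
      field_simp
    · rintro J ⟨⟨hJ1, hJ2⟩, hJ3⟩
      have hJ0 : J ≠ 0 := by
        rintro rfl
        have : sp (p : K) = 0 := le_antisymm hJ1 (zero_le _)
        exact sp_ne hp0' this
      obtain ⟨m, hm, hm'⟩ := exists_pow hp (I := 1) (J := J) one_ne_zero (by rwa [mul_one]) hJ2
      have hnm1 : nm (1 : FI K) = 1 := by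
        rw [nm, map_one]
      rw [hnm1, mul_one] at hm'
      have hm0 : m ≠ 0 := by
        rintro rfl
        rw [pow_zero] at hm'
        exact hJ3 (nm_eq_one hJ2 hm')
      refine cr_mul hC hCR (mul_ne_zero hJ0 hI0) hI0 ht hp0 ?_
      have h6 : nm (J * (I : FI K)) = nm J * nm (I : FI K) := map_mul _ _ _
      rw [h6]
      push_cast
      have h5 : (p : ℝ) ≤ ((nm J : ℚ) : ℝ) := by
        rw [hm']
        push_cast
        calc (p : ℝ) = (p : ℝ) ^ 1 := (pow_one _).symm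
          _ ≤ (p : ℝ) ^ m := pow_le_pow_right₀ (by exact_mod_cast hp.one_lt.le) (by omega)
      gcongr
    · rintro M ⟨⟨P, rfl, hPI, hPN, hPZ, hPt⟩, _, q, hq1, hq2, hq3⟩
      refine ⟨(q : FI K), ⟨⟨?_, ?_⟩, ?_⟩, P, rfl, ?_, hPN, hPZ, hPt⟩
      · rw [sp_le]
        have := (mem_coeIdeal (P := K) (S := (𝓞 K)⁰) (I := q) (x := (p : K))).2
          ⟨(p : 𝓞 K), hq2, by simp⟩
        exact this
      · exact coeIdeal_le_one
      · intro hq
        rw [coeIdeal_eq_one] at hq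
        exact hq1.ne_top (by rwa [Ideal.one_eq_top] at hq)
      · rw [ct_le]
        exact ⟨hq3 _ (fst_mem_Lt P), hq3 _ (snd_mem_Lt P)⟩
  · rintro M ⟨hM, p, hp, hXp, hCf⟩
    exact ⟨p, hXp, hM, hp, hCf⟩

end Pool.Agent.Y48.KF
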