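import Pool.Agent.Y714.KF.Stm

set_option autoImplicit false

/-! Counting by finite covers; tails of the sum of inverse squares. -/

namespace Pool.Agent.Y48.KF

open Finset

theorem bU {α β : Type*} (A : Set α) (T : Finset β) (F : β → Set α) (d : β → ℝ)
    (hF : ∀ b ∈ T, (F b).Finite ∧ ((F b).ncard : ℝ) ≤ d b)
    (hA : ∀ a ∈ A, ∃ b ∈ T, a ∈ F b) : A.Finite ∧ (A.ncard : ℝ) ≤ ∑ b ∈ T, d b := by
  classical
  let g : β → Finset α := fun b => if h : (F b).Finite then h.toFinset else ∅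
  have hg : ∀ b ∈ T, (g b : Set α) = F b := by
    intro b hb
    simp only [g]
    rw [dif_pos (hF b hb).1]
    exact (hF b hb).1.coe_toFinset
  have hsub : A ⊆ ((T.biUnion g : Finset α) : Set α) := by
    intro a ha
    obtain ⟨b, hb, hab⟩ := hA a ha
    rw [Finset.mem_coe, Finset.mem_biUnion]
    refine ⟨b, hb, ?_⟩
    rw [← Finset.mem_coe, hg b hb]
    exact hab
  have hfin : A.Finite := (T.biUnion g).finite_toSet.subset hsub
  refine ⟨hfin, ?_⟩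
  have h1 : A.ncard ≤ (T.biUnion g).card := by
    have := Set.ncard_le_ncard hsub (T.biUnion g).finite_toSet
    rwa [Set.ncard_coe_finset] at this
  have h2 : (T.biUnion g).card ≤ ∑ b ∈ T, (g b).card := Finset.card_biUnion_le
  calc (A.ncard : ℝ) ≤ ((∑ b ∈ T, (g b).card : ℕ) : ℝ) := by exact_mod_cast h1.trans h2
    _ = ∑ b ∈ T, ((g b).card : ℝ) := by push_cast; rfl
    _ ≤ ∑ b ∈ T, d b := by
        refine Finset.sum_le_sum fun b hb => ?_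
        have : ((g b).card : ℝ) = ((F b).ncard : ℝ) := by
          rw [← hg b hb, Set.ncard_coe_finset]
        rw [this]
        exact (hF b hb).2

theorem bUc {α β : Type*} (A : Set α) (T : Set β) (hT : T.Finite) (N : ℕ) (hN : T.ncard ≤ N)
    (F : β → Set α) (D : ℝ) (hD : 0 ≤ D)
    (hF : ∀ b ∈ T, (F b).Finite ∧ ((F b).ncard : ℝ) ≤ D)
    (hA : ∀ a ∈ A, ∃ b ∈ T, a ∈ F b) : A.Finite ∧ (A.ncard : ℝ) ≤ N * D := by
  obtain ⟨h1, h2⟩ := bU A hT.toFinset F (fun _ => D)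
    (fun b hb => hF b (hT.mem_toFinset.1 hb))
    (fun a ha => by
      obtain ⟨b, hb, hab⟩ := hA a ha
      exact ⟨b, hT.mem_toFinset.2 hb, hab⟩)
  refine ⟨h1, h2.trans ?_⟩
  rw [Finset.sum_const, nsmul_eq_mul]
  have : hT.toFinset.card = T.ncard := (Set.ncard_eq_toFinset_card T hT).symm
  rw [this]
  have : (T.ncard : ℝ) ≤ N := by exact_mod_cast hN
  gcongr

theorem tail_sum (X : ℝ) (hX : 0 < X) (S : Finset ℕ) (hS : ∀ p ∈ S, X < p) :
    ∑ p ∈ S, ((p : ℝ) ^ 2)⁻¹ ≤ 2 / X := by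
  have h1 : S ⊆ Ioo ⌊X⌋₊ (S.sup id + 1) := by
    intro p hp
    rw [mem_Ioo]
    refine ⟨?_, ?_⟩
    · exact (Nat.floor_lt hX.le).2 (hS p hp)
    · have : p ≤ S.sup id := Finset.le_sup (f := id) hp
      omega
  calc ∑ p ∈ S, ((p : ℝ) ^ 2)⁻¹ ≤ ∑ p ∈ Ioo ⌊X⌋₊ (S.sup id + 1), ((p : ℝ) ^ 2)⁻¹ :=
        Finset.sum_le_sum_of_subset_of_nonneg h1 fun _ _ _ => by positivity
    _ ≤ 2 / (⌊X⌋₊ + 1) := sum_Ioo_inv_sq_le _ _
    _ ≤ 2 / X := by
        have := (Nat.lt_floor_add_one X).le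
        gcongr

theorem cover {α : Type*} (A : Set α) (hA : A.Finite) (B : ℕ → Set α) (D X : ℝ) (hD : 0 ≤ D)
    (hX : 0 < X) (hB : ∀ p : ℕ, X < p → (B p).Finite ∧ ((B p).ncard : ℝ) ≤ D / (p : ℝ) ^ 2)
    (hAB : ∀ a ∈ A, ∃ p : ℕ, X < p ∧ a ∈ B p) : (A.ncard : ℝ) ≤ 2 * D / X := by
  classical
  choose! f hf1 hf2 using hAB
  set S : Finset ℕ := hA.toFinset.image f with hS
  have hSX : ∀ p ∈ S, X < p := by
    intro p hp
    rw [hS, Finset.mem_image] at hp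
    obtain ⟨a, ha, rfl⟩ := hp
    exact hf1 a (hA.mem_toFinset.1 ha)
  obtain ⟨_, h2⟩ := bU A S B (fun p => D / (p : ℝ) ^ 2) (fun p hp => hB p (hSX p hp))
    (fun a ha => ⟨f a, by
      rw [hS, Finset.mem_image]
      exact ⟨a, hA.mem_toFinset.2 ha, rfl⟩, hf2 a ha⟩)
  refine h2.trans ?_
  have h3 : ∑ p ∈ S, D / (p : ℝ) ^ 2 = D * ∑ p ∈ S, ((p : ℝ) ^ 2)⁻¹ := by
    rw [Finset.mul_sum]
    refine Finset.sum_congr rfl fun p _ => ?_
    rw [div_eq_mul_inv]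
  rw [h3]
  calc D * ∑ p ∈ S, ((p : ℝ) ^ 2)⁻¹ ≤ D * (2 / X) := by
        have := tail_sum X hX S hSX
        gcongr
    _ = 2 * D / X := by ring

end Pool.Agent.Y48.KF
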