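import Pool.Agent.Y48.KF.CF

set_option autoImplicit false

/-! Strong failure of reducedness at large primes. -/

namespace Pool.Agent.Y48.KF

open Pool.Agent.Y714.KF
open NumberField FractionalIdeal Module Finset
open scoped nonZeroDivisors

variable (K : Type) [Field K] [NumberField K]

theorem Ind.of_Lt {K : Type} [Field K] [NumberField K] {P Q : K × K} (hP : Ind P)
    (h : Lt P = Lt Q) : Ind Q := by
  obtain ⟨m', n', h3⟩ := mem_Lt.1 (h ▸ fst_mem_Lt P)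
  obtain ⟨k', l', h4⟩ := mem_Lt.1 (h ▸ snd_mem_Lt P)
  obtain ⟨m, n, h1⟩ := mem_Lt.1 (h.symm ▸ fst_mem_Lt Q)
  obtain ⟨k, l, h2⟩ := mem_Lt.1 (h.symm ▸ snd_mem_Lt Q)
  have e1 := hP (m' * m + n' * k - 1) (m' * n + n' * l) (by
    push_cast
    rw [← h1, ← h2] at h3
    linear_combination h3)
  have e2 := hP (k' * m + l' * k) (k' * n + l' * l - 1) (by
    push_cast
    rw [← h1, ← h2] at h4
    linear_combination h4)
  intro a b hab
  rw [← h1, ← h2] at hab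
  have e3 := hP (a * m + b * k) (a * n + b * l) (by
    push_cast
    linear_combination hab)
  have f1 : (m' : ℚ) * m + n' * k = 1 := by linarith [e1.1]
  have f2 : (m' : ℚ) * n + n' * l = 0 := e1.2
  have f3 : (k' : ℚ) * m + l' * k = 0 := e2.1
  have f4 : (k' : ℚ) * n + l' * l = 1 := by linarith [e2.2]
  obtain ⟨g1, g2⟩ := e3
  have hdet : ((m : ℚ) * l - n * k) * (m' * l' - n' * k') = 1 := by
    linear_combination (k' * n + l' * l) * f1 + f4 - (k' * m + l' * k) * f2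
  have hd : ((m : ℚ) * l - n * k) ≠ 0 := left_ne_zero_of_mul_eq_one hdet
  constructor
  · have : a * ((m : ℚ) * l - n * k) = 0 := by linear_combination l * g1 - k * g2
    exact (mul_eq_zero.1 this).resolve_right hd
  · have : b * ((m : ℚ) * l - n * k) = 0 := by linear_combination m * g2 - n * g1
    exact (mul_eq_zero.1 this).resolve_right hd

/-- the sublattice of index `p` -/
theorem sub_mem_SL {K : Type} [Field K] [NumberField K] (hodd : Odd (finrank ℚ K))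
    (hn : 2 ≤ finrank ℚ K) {κ : Fin (Units.rank K) → ℝ} {I : FI K} {t : ℝ} {p : ℕ}
    (hp : p.Prime) {P : K × K} (hPI : ct P ≤ I) (hPN : Nd P) (hPZ : Nz κ (vec P))
    (hPt : pm (vec P) ≤ t) {x y : K} (hxy : Lt (x, y) = Lt P) :
    Ind (x, y) ∧ Lt (x, (p : K) * y) ∈ SL κ (sp (p : K) * I + sp x) ((p : ℝ) ^ finrank ℚ K * t) := by
  have hind : Ind (x, y) := Ind.of_Lt (hPN.ind hn) hxy.symm
  refine ⟨hind, ?_⟩
  obtain ⟨g1, g2, g3, _⟩ := Lt_inv hodd hn hPN hind hxy.symm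
  have hp0 : (p : ℚ) ≠ 0 := by exact_mod_cast hp.ne_zero
  have hdet : (1 : ℚ) * (p : ℚ) - 0 * 0 ≠ 0 := by simpa using hp0
  have he : ((x, (p : K) * y) : K × K) = (((1 : ℚ) : K) * (x, y).1 + ((0 : ℚ) : K) * (x, y).2,
      ((0 : ℚ) : K) * (x, y).1 + ((p : ℚ) : K) * (x, y).2) := by
    ext <;> simp
  refine ⟨(x, (p : K) * y), rfl, ?_, ?_, ?_, ?_⟩
  · rw [ct_le]
    constructor
    · have : sp x ≤ sp (p : K) * I + sp x := by
        rw [← sup_eq_add]; exact le_sup_right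
      exact sp_le.1 this
    · have h1 : y ∈ I := Lt_mem hPI (hxy ▸ snd_mem_Lt (x, y))
      have h2 : sp ((p : K) * y) ≤ sp (p : K) * I + sp x := by
        rw [← sup_eq_add]
        refine le_trans ?_ le_sup_left
        rw [sp_mul]
        have := sp_le.2 h1
        gcongr
      exact sp_le.1 h2
  · rw [he]
    exact g1.gl hdet
  · intro j
    rw [he, cc_vec_gl hodd 1 0 0 p hdet (x, y) (g1.pm_pos hn), g3]
    exact hPZ j
  · rw [he, pm_vec_gl, g2]
    have : |(((1 : ℚ) : ℝ) * ((p : ℚ) : ℝ) - ((0 : ℚ) : ℝ) * ((0 : ℚ) : ℝ))| = (p : ℝ) := by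
      push_cast
      rw [one_mul, mul_zero, sub_zero, abs_of_nonneg (by positivity)]
    rw [this]
    gcongr

theorem rf1 (h1 : S_CR K) (h2 : S_DIV K) (h3 : S_BAS K) (h4 : S_SUP K) : S_RF1 K := by
  intro hodd hn κ
  obtain ⟨C, hC, hCR⟩ := h1 hodd hn κ
  refine ⟨2 * (2 ^ finrank ℚ K * (2 * C)), by positivity, fun I t X ht hX => ?_⟩
  have hI0 : (I : FI K) ≠ 0 := I.ne_zero
  have hnI : (0 : ℝ) < ((nm (I : FI K) : ℚ) : ℝ) := by exact_mod_cast nm_pos hI0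
  set n := finrank ℚ K with hndef
  have key := cover {M ∈ SL κ (I : FI K) t | ∃ p : ℕ, p.Prime ∧ X < p ∧ ∃ m ≤ n,
      n + 3 ≤ 2 * m ∧ Rf p m I M}
    ((hCR I t ht).1.subset fun M hM => hM.1)
    (fun p => {M | M ∈ SL κ (I : FI K) t ∧ p.Prime ∧ ∃ m ≤ n, n + 3 ≤ 2 * m ∧ Rf p m I M})
    (2 ^ n * (2 * C) * t / ((nm (I : FI K) : ℚ) : ℝ) ^ 2) X (by positivity) (by linarith)
    ?_ ?_
  · refine key.trans (le_of_eq ?_)
    field_simp
  · intro p hXp
    have hp0 : (0 : ℝ) < (p : ℝ) := by linarith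
    by_cases hp : p.Prime
    swap
    · have : {M | M ∈ SL κ (I : FI K) t ∧ p.Prime ∧ ∃ m ≤ n, n + 3 ≤ 2 * m ∧ Rf p m I M} =
          ∅ := by
        ext M
        simp [hp]
      rw [this]
      refine ⟨Set.finite_empty, ?_⟩
      rw [Set.ncard_empty]
      push_cast
      positivity
    obtain ⟨d1, d2⟩ := h2 p hp I
    have hp0' : (p : K) ≠ 0 := by exact_mod_cast hp.ne_zero
    have hp1 : (1 : ℝ) ≤ p := by exact_mod_cast hp.one_lt.le
    have hT : {J : FI K | (sp (p : K) * (I : FI K) ≤ J ∧ J ≤ I) ∧ ∃ m, n + 3 ≤ 2 * m ∧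
        nm J = (p : ℚ) ^ m * nm (I : FI K)} ⊆
        {J : FI K | sp (p : K) * (I : FI K) ≤ J ∧ J ≤ I} := fun J hJ => hJ.1
    have key2 := bUc {M | M ∈ SL κ (I : FI K) t ∧ p.Prime ∧ ∃ m ≤ n, n + 3 ≤ 2 * m ∧ Rf p m I M}
      {J : FI K | (sp (p : K) * (I : FI K) ≤ J ∧ J ≤ I) ∧ ∃ m, n + 3 ≤ 2 * m ∧
        nm J = (p : ℚ) ^ m * nm (I : FI K)} (d1.subset hT) (2 ^ n)
      ((Set.ncard_le_ncard hT d1).trans d2)
      (fun J => {M | ∃ P : K × K, Ind P ∧ M = Lt P ∧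
        Lt (P.1, (p : K) * P.2) ∈ SL κ J ((p : ℝ) ^ n * t)})
      (2 * C * t / ((p : ℝ) ^ 2 * ((nm (I : FI K) : ℚ) : ℝ) ^ 2)) (by positivity) ?_ ?_
    · refine ⟨key2.1, key2.2.trans (le_of_eq ?_)⟩
      push_cast
      field_simp
    · rintro J ⟨⟨hJ1, hJ2⟩, m, hm1, hm2⟩
      have hJ0 : J ≠ 0 := by
        rintro rfl
        have : sp (p : K) * (I : FI K) = 0 := le_antisymm hJ1 (zero_le _)
        exact mul_ne_zero (sp_ne hp0') hI0 this
      obtain ⟨c1, c2⟩ := cr_mul hC hCR hJ0 hI0 (t := (p : ℝ) ^ n * t) (by positivity)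
        (D := (p : ℝ) ^ m) (by positivity) (by rw [hm2]; push_cast; exact le_rfl)
      obtain ⟨e1, e2⟩ := bUc {M | ∃ P : K × K, Ind P ∧ M = Lt P ∧
          Lt (P.1, (p : K) * P.2) ∈ SL κ J ((p : ℝ) ^ n * t)}
        (SL κ J ((p : ℝ) ^ n * t)) c1 _ le_rfl
        (fun M₁ => {M : Submodule ℤ K | ∃ x y : K, Ind (x, y) ∧ M = Lt (x, y) ∧
          Lt (x, (p : K) * y) = M₁}) ((p : ℝ) + 1) (by positivity)
        (fun M₁ _ => by
          obtain ⟨s1, s2⟩ := h4 p hp M₁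
          exact ⟨s1, by exact_mod_cast s2⟩)
        (by
          rintro M ⟨P, hP1, hP2, hP3⟩
          exact ⟨_, hP3, P.1, P.2, hP1, hP2, rfl⟩)
      refine ⟨e1, e2.trans ?_⟩
      calc ((SL κ J ((p : ℝ) ^ n * t)).ncard : ℝ) * ((p : ℝ) + 1) ≤
          (C * ((p : ℝ) ^ n * t) / (((p : ℝ) ^ m) ^ 2 * ((nm (I : FI K) : ℚ) : ℝ) ^ 2)) *
            (2 * p) := by
            gcongr
            linarith
        _ ≤ 2 * C * t / ((p : ℝ) ^ 2 * ((nm (I : FI K) : ℚ) : ℝ) ^ 2) := by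
            have h5 : ((p : ℝ) ^ m) ^ 2 = (p : ℝ) ^ (n + 3) * (p : ℝ) ^ (2 * m - (n + 3)) := by
              rw [← pow_mul, ← pow_add]
              congr 1
              omega
            have h6 : (1 : ℝ) ≤ (p : ℝ) ^ (2 * m - (n + 3)) := one_le_pow₀ hp1
            have h7 : (p : ℝ) ^ (n + 3) ≤ ((p : ℝ) ^ m) ^ 2 := by
              rw [h5]
              have : (0 : ℝ) < (p : ℝ) ^ (n + 3) := by positivity
              nlinarith
            calc (C * ((p : ℝ) ^ n * t) / (((p : ℝ) ^ m) ^ 2 *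
                ((nm (I : FI K) : ℚ) : ℝ) ^ 2)) * (2 * p) ≤
                (C * ((p : ℝ) ^ n * t) / ((p : ℝ) ^ (n + 3) *
                ((nm (I : FI K) : ℚ) : ℝ) ^ 2)) * (2 * p) := by gcongr
              _ = _ := by
                rw [pow_add]
                field_simp
    · rintro M ⟨⟨P, rfl, hPI, hPN, hPZ, hPt⟩, _, m, hm1, hm2, hRf⟩
      obtain ⟨x, y, hxy, hnm⟩ := h3 p hp m I P (hPN.ind (by omega)) hPI hRf
      refine ⟨sp (p : K) * (I : FI K) + sp x, ⟨⟨?_, ?_⟩, m, hm2, hnm⟩, (x, y), ?_⟩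
      · rw [← sup_eq_add]; exact le_sup_left
      · rw [← sup_eq_add, sup_le_iff]
        refine ⟨?_, ?_⟩
        · calc sp (p : K) * (I : FI K) ≤ 1 * I := by
                have := sp_natCast_le_one (K := K) p
                gcongr
            _ = I := one_mul _
        · rw [sp_le]
          exact Lt_mem hPI (hxy ▸ fst_mem_Lt (x, y))
      · obtain ⟨i1, i2⟩ := sub_mem_SL hodd (by omega) hp hPI hPN hPZ hPt hxy
        exact ⟨i1, hxy.symm, i2⟩
  · rintro M ⟨hM, p, hp, hXp, hRf⟩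
    exact ⟨p, hXp, hM, hp, hRf⟩

end Pool.Agent.Y48.KF
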